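import Pool.Agent.Run7.h306.WE5

/-!
# Finite generation of Weil-étale motivic cohomology for products with cyclic coverings branched
along hyperplanes, relative to an arbitrary variety

Let `κ` be a finite field with `q = c ^ f` elements, and `𝒱` a class of smooth projective varieties over
`κ`, closed under products, with Chow groups `A` with rational coefficients and a Weil cohomology theory
`H` (framework of helper492 and helper484: `TheoryData`, `IsChow`, `IsWeil`). Let `X_i` be varieties in
`𝒱`, of any dimensions `n_i`, which are models of cyclic coverings

  `w ^ N_i = ∏ l_{i,k} (x) ^ a_{i,k}`

of projective spaces, branched along hyperplanes `l_{i,k} = 0` over `κ`, with exponents prime to `N_i`,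
where `N_i` divides `q - 1` (`IsModel`: the cohomology is generated by the classes of cycles and a part
`T`, pure of weight `n_i`, without invariants under the covering group, for which the trace formula
holds). Let `N` be a common multiple of the `N_i`, and `λ` an integer such that `IsSmall N λ` holds: for
every nonempty finite set `I` of indices and all `j_i` not divisible by `N_i` (`i ∈ I`) there is a `u`
prime to `N` with `∑_{i ∈ I} weight X_i (u j_i) + λ / 2 < ∑_{i ∈ I} (n_i / 2 + 1)`; here `weight X j` is
the mean over the orbit `j, c j, …, c ^ (f - 1) j` of the sum of the fractional parts of `j a_k / N_i`.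

Let `Z` be **any** variety in `𝒱` such that (`IsGoodBase` with the polynomial `x - 1`; theorem of Deligne)
the eigenvalues `b` of Frobenius on `H(Z)` are of the form `|b| ^ 2 = q ^ j` and
* either `λ = 0` and the cyclotomic polynomial of order `N` is irreducible over the field generated by
  the numbers `b` (for given `Z` this is true for all `N` prime to the discriminant of this field),
* or `Z` is of level `≤ λ`: the numbers `q ^ λ b / b̄` are algebraic integers. This is true if
  `dim Z ≤ λ`.

`IntegralChow` and `IsIntegralChow` are the integral Chow groups `CH(X)` (with composition of
correspondences, diagonals and the Frobenius endomorphisms), compatible with the rational ones;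
`WeilEtale` and `IsWeilEtale` are the Weil-étale motivic cohomology groups `W X n i = H^i_W(X, ℤ(n))`
with the operation of correspondences; used are: the Frobenius endomorphism operates as `q ^ n` for
`n ≥ 0`, the torsion subgroups `H^i_W(X, ℤ(n))[m]` are finite, and the groups with `n < 0` are finite.
`Finiteness E X n` is Lichtenbaum's statement `L^n(X)`: `H^i_W(X, ℤ(n))` is finitely generated for all
`i`.

**Theorem.** Let `V` be the product of `Z` and of finitely many of the `X_i` (pairwise different), and
`d = dim V - dim Z`. Suppose that homologically trivial self-correspondences of degree zero of the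
products of `Z` and finitely many different `X_i` are nilpotent (known for example if `Z` is a point, a curve or an abelian variety and the
`X_i` are curves or have `n_i + 2` branch hyperplanes in general position). Then for each `n ≥ 0`

  **`L^n(V)` holds if and only if `L^m(Z)` holds for all `m ≥ 0` with `n - d ≤ m ≤ n`.**

In particular Lichtenbaum's conjecture for `V` in all weights is equivalent to the conjecture for `Z`.
The conditions allow for instance the varieties `w ^ N = l_1 ⋯ l_N` of dimension `N - 2`, with `N`
hyperplanes in general position, for a prime number `N` dividing `c - 1`, and all `Z` of dimension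
smaller than `N - 2`; nothing is assumed on the Tate conjecture or the conjectures of Beilinson and
Parshin for `Z`.

The theorem of Geisser, that `K^n(X)` and `K^{d-n}(X)` imply `L^n(X)`, would give such statements for
pairs of complementary weights only, and Tate-Beilinson for `V` in all degrees only from
Tate-Beilinson for `Z`; it is not used here. The proof is integral: by the theorem of Stickelberger on
Gauss sums (`N876/CG` of the starting files, by helper876) no product of eigenvalues of the Frobenius on
the parts `T` of several `X_i` and of a number `b` is a power of `q`. So there are integral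
correspondences between `V = X_i × V'` and sums of twists of `V'` whose composition is, up to a
homologically trivial, hence nilpotent, correspondence and torsion, a polynomial in the Frobenius which
is a nonzero integer on `H^i_W(V, ℤ(n))`. So a nonzero multiple of `H^i_W(V, ℤ(n))` is contained in the
image of a finite sum of groups `H^{i'}_W(V', ℤ(n'))`, and, the torsion subgroups being finite,
`H^i_W(V, ℤ(n))` is finitely generated if these groups are; the converse is similar, as `X_i × V'`
contains twists of `V'` as direct summands up to torsion.
-/

set_option autoImplicit false

open Polynomial CategoryTheory AlgebraicGeometry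

namespace Pool.Agent.Results.MP_cb388a_ag.CoveringProducts

open Pool.Agent.H914 Pool.Agent.H914.VarClass Pool.Agent.H914.VarClass.Obj Pool.Agent.W492.BB
  Pool.Agent.W484.CK Pool.Agent.N876.GB3 Run7.h306.WE

/-- **`L^n(V)` is equivalent to `L^m(Z)` for `n - d ≤ m ≤ n`**, for products `V` of `Z` and of cyclic
coverings branched along hyperplanes, `d = dim V - dim Z`. -/
theorem result (c : ℕ) [Fact c.Prime] (κ : Type) [Field κ] [Fintype κ] [CharP κ c] {ι : Type}
    (C : ι → Covering κ) (f N lam : ℕ) (hC : IsSmallSystem C c f N lam)
    {𝒱 : VarClass κ} (A : TheoryData.{0, 0, 0} 𝒱 ℚ) [IsChow A] {K : Type} [Field K]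
    [IsAlgClosed K] [CharZero K] (H : WeilTheoryData.{0, 0, 0} A K) [IsWeil H] (τ : K →+* ℂ)
    (F : ∀ X : 𝒱.Obj, X ⟶ X) (X : ι → 𝒱.Obj) (Z : 𝒱.Obj)
    (h : IsCoveringSystem C N lam H τ F X Z (Polynomial.X - 1))
    (hnil : ∀ L : List ι, L.Nodup → Nilpotence H (productOf X Z L)) (I : IntegralChow A)
    (hI : IsIntegralChow I F)
    (E : WeilEtale I) (hE : IsWeilEtale E (Fintype.card κ)) (L : List ι) (hL : L.Nodup) (n : ℕ) :
    Finiteness E (productOf X Z L) n ↔
      ∀ m : ℕ, n ≤ m + dimension X L → m ≤ n → Finiteness E Z m :=
  main c κ C f N lam hC A H τ F X Z h hnil I hI E hE L hL n

end Pool.Agent.Results.MP_cb388a_ag.CoveringProducts
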